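import Pool.Agent.Helper41.LD6.Defs

/-!
# Project LD6, block T5: the lower bound of the derivative of a phase
-/

set_option autoImplicit false

namespace Pool.Agent.Helper14.LD6

open Set
open Pool.Agent.Helper41.LD6 (NR6 Uf Vf)

/-- a cluster: from `τ₀` on, with a gap `G` below -/
theorem clus (G : ℕ) : ∀ (k : ℕ) (I : Finset ℕ), I.Nonempty → I.card ≤ k →
    ∃ τ₀ ∈ I, (∀ τ ∈ I, τ ≤ τ₀ + k * G) ∧ ∀ τ ∈ I, τ < τ₀ → τ + G ≤ τ₀ := by
  intro k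
  induction k with
  | zero =>
    intro I hne hc
    have := Finset.card_pos.mpr hne
    omega
  | succ k ih =>
    intro I hne hc
    have hμ : I.min' hne ∈ I := Finset.min'_mem I hne
    have hmin : ∀ τ ∈ I, I.min' hne ≤ τ := fun τ hτ => Finset.min'_le I τ hτ
    generalize I.min' hne = μ at hμ hmin
    by_cases hJ : (I.erase μ).Nonempty
    · have hcJ : (I.erase μ).card ≤ k := by
        rw [Finset.card_erase_of_mem hμ]
        omega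
      obtain ⟨τ₀, hτ₀, hup, hgap⟩ := ih (I.erase μ) hJ hcJ
      have hτ₀I : τ₀ ∈ I := Finset.mem_of_mem_erase hτ₀
      by_cases hc1 : μ + G ≤ τ₀
      · refine ⟨τ₀, hτ₀I, ?_, ?_⟩
        · intro τ hτ
          by_cases h : τ = μ
          · rw [h]
            have := hmin τ₀ hτ₀I
            omega
          · have := hup τ (Finset.mem_erase.mpr ⟨h, hτ⟩)
            have h2 : (k + 1) * G = k * G + G := by ring
            omega
        · intro τ hτ hlt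
          by_cases h : τ = μ
          · rw [h]
            exact hc1
          · exact hgap τ (Finset.mem_erase.mpr ⟨h, hτ⟩) hlt
      · refine ⟨μ, hμ, ?_, ?_⟩
        · intro τ hτ
          by_cases h : τ = μ
          · rw [h]
            omega
          · have := hup τ (Finset.mem_erase.mpr ⟨h, hτ⟩)
            have h2 : (k + 1) * G = k * G + G := by ring
            omega
        · intro τ hτ hlt
          have := hmin τ hτ
          omega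
    · have hall : ∀ τ ∈ I, τ = μ := by
        intro τ hτ
        by_contra h
        exact hJ ⟨τ, Finset.mem_erase.mpr ⟨h, hτ⟩⟩
      refine ⟨μ, hμ, ?_, ?_⟩
      · intro τ hτ
        rw [hall τ hτ]
        omega
      · intro τ hτ hlt
        rw [hall τ hτ] at hlt
        omega

theorem phi_lo {A₀ x₁ x₂ a ℓ δ κ₁ : ℝ} {t G T N : ℕ} (hA : 0 < A₀) (h1 : 1 < x₁) (ha1 : x₁ ≤ a) (ha2 : a + ℓ ≤ x₂) (I : Finset ℕ)
    (hI : I.card ≤ t) (hIT : ∀ τ ∈ I, 1 ≤ τ ∧ τ ≤ T) (hnr : ∀ x ∈ Icc a (a + ℓ), NR6 t (t * G) T N δ x) (hδ : 0 < δ)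
    (hgap : (t : ℝ) * N * T ≤ δ / 2 * x₁ ^ G) (hκ0 : 0 < κ₁) (hκ : κ₁ * (2 * T * x₂ ^ (t * G)) ≤ δ) (m : ℕ → ℤ)
    (hm : ∀ τ ∈ I, |m τ| ≤ N) (hm0 : ∃ τ ∈ I, m τ ≠ 0) :
    ∃ τs ∈ I, (∀ τ ∈ I, m τ ≠ 0 → τ ≤ τs) ∧ ∀ x ∈ Icc a (a + ℓ), κ₁ * Vf A₀ τs x ≤ |∑ τ ∈ I, (m τ : ℝ) * Vf A₀ τ x| := by
  classical
  obtain ⟨τ₁, hτ₁, hmτ₁⟩ := hm0
  set I' : Finset ℕ := I.filter fun τ => m τ ≠ 0 with hI'
  have hI'I : ∀ τ ∈ I', τ ∈ I ∧ m τ ≠ 0 := fun τ hτ => Finset.mem_filter.mp hτ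
  have hne : I'.Nonempty := ⟨τ₁, Finset.mem_filter.mpr ⟨hτ₁, hmτ₁⟩⟩
  have hcard : I'.card ≤ t := (Finset.card_filter_le _ _).trans hI
  obtain ⟨τ₀, hτ₀, hup, hgp⟩ := clus G t I' hne hcard
  have hmaxm : I'.max' hne ∈ I' := Finset.max'_mem I' hne
  have hmax : ∀ τ ∈ I', τ ≤ I'.max' hne := fun τ hτ => Finset.le_max' I' τ hτ
  generalize I'.max' hne = τs at hmaxm hmax
  refine ⟨τs, (hI'I τs hmaxm).1, fun τ hτ h => hmax τ (Finset.mem_filter.mpr ⟨hτ, h⟩), ?_⟩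
  intro x hx
  have hxa : a ≤ x := hx.1
  have hx1 : x₁ ≤ x := ha1.trans hxa
  have hx0 : 1 < x := h1.trans_le hx1
  have hxp : 0 < x := by linarith
  have hx2 : x ≤ x₂ := hx.2.trans ha2
  obtain ⟨hτ₀1, hτ₀T⟩ := hIT τ₀ (hI'I τ₀ hτ₀).1
  obtain ⟨hτs1, hτsT⟩ := hIT τs (hI'I τs hmaxm).1
  set y : ℝ := A₀ * x ^ (τ₀ - 1) with hy
  have hy0 : 0 < y := by positivity
  -- the cluster
  set C : Finset ℕ := (Finset.range (t * G + 1)).filter fun i => τ₀ + i ∈ I' with hC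
  have hCne : C.Nonempty := ⟨0, Finset.mem_filter.mpr ⟨by simp, by simpa using hτ₀⟩⟩
  have hCcard : C.card ≤ t := by
    refine le_trans (Finset.card_le_card_of_injOn (fun i => τ₀ + i) ?_ ?_) hcard
    · intro i hi
      exact (Finset.mem_filter.mp hi).2
    · intro i _ j _ h
      simpa using h
  have hlow : δ ≤ |∑ i ∈ C, (m (τ₀ + i) : ℝ) * ((τ₀ : ℝ) + i) * x ^ i| := by
    refine hnr x hx τ₀ hτ₀1 hτ₀T C (Finset.filter_subset _ _) hCne hCcard (fun i => m (τ₀ + i)) ?_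
    intro i hi
    have h := hI'I _ (Finset.mem_filter.mp hi).2
    exact ⟨h.2, hm _ h.1⟩
  have hsumC : ∑ τ ∈ I' with τ₀ ≤ τ, (m τ : ℝ) * Vf A₀ τ x = y * ∑ i ∈ C, (m (τ₀ + i) : ℝ) * ((τ₀ : ℝ) + i) * x ^ i := by
    rw [Finset.mul_sum]
    symm
    refine Finset.sum_bij (fun i _ => τ₀ + i) ?_ ?_ ?_ ?_
    · intro i hi
      exact Finset.mem_filter.mpr ⟨(Finset.mem_filter.mp hi).2, by omega⟩
    · intro i _ j _ h
      simpa using h
    · intro τ hτ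
      obtain ⟨hτI, hle⟩ := Finset.mem_filter.mp hτ
      refine ⟨τ - τ₀, Finset.mem_filter.mpr ⟨?_, ?_⟩, by omega⟩
      · have := hup τ hτI
        rw [Finset.mem_range]
        omega
      · rwa [show τ₀ + (τ - τ₀) = τ by omega]
    · intro i _
      rw [hy, Vf, show τ₀ + i - 1 = (τ₀ - 1) + i by omega, pow_add]
      push_cast
      ring
  -- the rest
  have hsumR : |∑ τ ∈ I' with ¬ τ₀ ≤ τ, (m τ : ℝ) * Vf A₀ τ x| ≤ δ / 2 * y := by
    have hxG : 0 < x ^ G := by positivity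
    have hterm : ∀ τ ∈ I'.filter (fun τ => ¬ τ₀ ≤ τ), |(m τ : ℝ) * Vf A₀ τ x| * x ^ G ≤ N * T * y := by
      intro τ hτ
      obtain ⟨hτI, hlt⟩ := Finset.mem_filter.mp hτ
      have hg := hgp τ hτI (by omega)
      obtain ⟨hτ1, hτT⟩ := hIT τ (hI'I τ hτI).1
      have hmn : |(m τ : ℝ)| ≤ N := by
        have := hm τ (hI'I τ hτI).1
        exact_mod_cast this
      have hV0 : 0 ≤ Vf A₀ τ x := by
        rw [Vf]
        positivity
      rw [abs_mul, abs_of_nonneg hV0, mul_assoc, mul_assoc]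
      refine mul_le_mul hmn ?_ (by positivity) (by positivity)
      rw [Vf, hy]
      have hp : x ^ (τ - 1) * x ^ G ≤ x ^ (τ₀ - 1) := by
        rw [← pow_add]
        exact pow_le_pow_right₀ hx0.le (by omega)
      have hTr : (τ : ℝ) ≤ T := by exact_mod_cast hτT
      calc A₀ * τ * x ^ (τ - 1) * x ^ G = (τ : ℝ) * (A₀ * (x ^ (τ - 1) * x ^ G)) := by ring
        _ ≤ T * (A₀ * x ^ (τ₀ - 1)) := by gcongr
    have hall : |∑ τ ∈ I' with ¬ τ₀ ≤ τ, (m τ : ℝ) * Vf A₀ τ x| * x ^ G ≤ t * N * T * y := by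
      calc |∑ τ ∈ I' with ¬ τ₀ ≤ τ, (m τ : ℝ) * Vf A₀ τ x| * x ^ G
          ≤ (∑ τ ∈ I' with ¬ τ₀ ≤ τ, |(m τ : ℝ) * Vf A₀ τ x|) * x ^ G := by
            gcongr
            exact Finset.abs_sum_le_sum_abs _ _
        _ = ∑ τ ∈ I' with ¬ τ₀ ≤ τ, |(m τ : ℝ) * Vf A₀ τ x| * x ^ G := by rw [Finset.sum_mul]
        _ ≤ ∑ τ ∈ I' with ¬ τ₀ ≤ τ, (N * T * y : ℝ) := Finset.sum_le_sum hterm
        _ = ((I'.filter fun τ => ¬ τ₀ ≤ τ).card : ℝ) * (N * T * y) := by rw [Finset.sum_const, nsmul_eq_mul]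
        _ ≤ t * (N * T * y) := by
            have : ((I'.filter fun τ => ¬ τ₀ ≤ τ).card : ℝ) ≤ t := by exact_mod_cast (Finset.card_filter_le _ _).trans hcard
            gcongr
        _ = t * N * T * y := by ring
    have hfin : |∑ τ ∈ I' with ¬ τ₀ ≤ τ, (m τ : ℝ) * Vf A₀ τ x| * x ^ G ≤ δ / 2 * y * x ^ G := by
      refine hall.trans ?_
      calc (t : ℝ) * N * T * y ≤ δ / 2 * x₁ ^ G * y := by gcongr
        _ ≤ δ / 2 * x ^ G * y := by gcongr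
        _ = δ / 2 * y * x ^ G := by ring
    exact le_of_mul_le_mul_right hfin hxG
  have hsplit : ∑ τ ∈ I, (m τ : ℝ) * Vf A₀ τ x =
      ∑ τ ∈ I' with τ₀ ≤ τ, (m τ : ℝ) * Vf A₀ τ x + ∑ τ ∈ I' with ¬ τ₀ ≤ τ, (m τ : ℝ) * Vf A₀ τ x := by
    rw [Finset.sum_filter_add_sum_filter_not, hI', Finset.sum_filter]
    refine Finset.sum_congr rfl fun τ _ => ?_
    split_ifs with h
    · rfl
    · have h0 : m τ = 0 := by simpa using h
      rw [h0]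
      simp
  have hbig : δ * y ≤ |∑ τ ∈ I' with τ₀ ≤ τ, (m τ : ℝ) * Vf A₀ τ x| := by
    rw [hsumC, abs_mul, abs_of_pos hy0, mul_comm δ y]
    gcongr
  have hlo : δ / 2 * y ≤ |∑ τ ∈ I, (m τ : ℝ) * Vf A₀ τ x| := by
    rw [hsplit]
    have h3 := abs_sub_abs_le_abs_sub (∑ τ ∈ I' with τ₀ ≤ τ, (m τ : ℝ) * Vf A₀ τ x) (-(∑ τ ∈ I' with ¬ τ₀ ≤ τ, (m τ : ℝ) * Vf A₀ τ x))
    rw [abs_neg, sub_neg_eq_add] at h3
    linarith
  refine le_trans ?_ hlo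
  have hpx : x ^ (τs - 1) ≤ x ^ (τ₀ - 1) * x₂ ^ (t * G) := by
    have h5 := hup τs hmaxm
    calc x ^ (τs - 1) ≤ x ^ (τ₀ - 1 + t * G) := pow_le_pow_right₀ hx0.le (by omega)
      _ = x ^ (τ₀ - 1) * x ^ (t * G) := pow_add _ _ _
      _ ≤ x ^ (τ₀ - 1) * x₂ ^ (t * G) := by gcongr
  have hTr : (τs : ℝ) ≤ T := by exact_mod_cast hτsT
  have hx₂ : 0 < x₂ := by linarith
  calc κ₁ * Vf A₀ τs x = κ₁ * ((τs : ℝ) * (A₀ * x ^ (τs - 1))) := by
        rw [Vf]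
        ring
    _ ≤ κ₁ * (T * (A₀ * (x ^ (τ₀ - 1) * x₂ ^ (t * G)))) := by gcongr
    _ = κ₁ * (2 * T * x₂ ^ (t * G)) / 2 * y := by
        rw [hy]
        ring
    _ ≤ δ / 2 * y := by gcongr

end Pool.Agent.Helper14.LD6
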