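import Pool.Agent.Helper14.LD6.TSL0
import Pool.Agent.Helper17.LD6.GM
import Pool.Agent.Helper18.LD6.FO2
import Pool.Agent.Helper47.LD6.TTB2
import Pool.Agent.Helper76.LD6.Num
import Pool.Agent.Helper94.LD6.TTA

/-!
# Project LD6, block TST: slow functionals against the test
-/

set_option autoImplicit false

namespace Pool.Agent.Helper14.LD6

open Set MeasureTheory
open Pool.Agent.Helper41.LD (av)
open Pool.Agent.Helper41.LD6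
open Pool.Agent.Helper17.LD6 (G_meas G_bdd)
open Pool.Agent.Helper18.LD6 (fast_one)
open Pool.Agent.Helper47.LD6 (V_near V_steps)
open Pool.Agent.Helper76.LD6 (num_E num_K num_Z num_le)
open Pool.Agent.Helper94.LD6 (Uf_cont Uf_mono Uf_sub)

variable {F : Pm} {K : ℕ} {a₀ ℓst a ℓ : ℝ} {q q' : Fin (F.d + 1) → ℕ} {j : ℕ}

theorem Qs_lt14 {d K : ℕ} {q : Fin (d + 1) → ℕ} (hq : q ∈ Qs d K) (i : Fin (d + 1)) : q i < 2 ^ K :=
  Finset.mem_range.mp (Fintype.mem_piFinset.mp (Finset.mem_filter.mp hq).1 i)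

/-- the break points of a slow functional -/
theorem slow_brk (hF : F.Ok) (hK : F.Big K) (S : F.St K a₀ ℓst) (hℓ : 0 < ℓ) (h1 : a₀ ≤ a) (h2 : a + ℓ ≤ a₀ + ℓst) {Θ : ℝ} (hΘ0 : 0 ≤ Θ)
    (hj : F.V K a₀ ℓst j a * ℓ ≤ Θ) (hj2 : j < 2 ^ (2 * K)) (hqs : q ∈ Qs F.d K) :
    ∃ T : Finset ℝ, (T.card : ℝ) ≤ (F.d + 1) * (2 ^ K * (2 ^ F.E K / 4 * Θ) + 1) ∧
      ∀ x ∈ Icc a (a + ℓ), ∀ y ∈ Icc a (a + ℓ), x ≤ y → (∀ z ∈ T, z ∉ Ioc x y) →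
        F.G K a₀ ℓst q j x = F.G K a₀ ℓst q j y := by
  have ha0 : 0 < a := by linarith [hF.h1, S.lo]
  have hmem : ∀ x ∈ Icc a (a + ℓ), 0 ≤ x := fun x hx => ha0.le.trans hx.1
  have hal : a ≤ a + ℓ := by linarith
  obtain ⟨T, hT1, hT2⟩ := prod_brk (d := F.d) (K := K) (q := q) (Qs_lt14 hqs) hal (fun i => F.U K a₀ ℓst (j + i))
    (fun i => (Uf_cont _ _ _).continuousOn) (fun i x hx y hy hxy => Uf_mono hF.hA (hmem x hx) hxy)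
    (D := 2 ^ F.E K / 4 * Θ) (by
      intro i
      have hi : (i : ℕ) ≤ F.d := by omega
      have e1 : F.U K a₀ ℓst (j + i) (a + ℓ) - F.U K a₀ ℓst (j + i) a ≤ F.V K a₀ ℓst (j + i) (a + ℓ) * ℓ := by
        have := Uf_sub (A₀ := F.A₀) (c := F.c) (n := Tt F.A₀ (F.Th K) a₀ ℓst + (j + i)) hF.hA ha0.le hal
        rw [add_sub_cancel_left] at this
        exact this
      have e2 := (V_near hF hK S h1 hal h2 (j := j + i) (by omega)).2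
      have e3 := V_steps hF hK S h1 (by linarith) (j := j) (i := i) (by omega)
      have hE0 : (0 : ℝ) < 2 ^ F.E K := by positivity
      calc F.U K a₀ ℓst (j + i) (a + ℓ) - F.U K a₀ ℓst (j + i) a ≤ F.V K a₀ ℓst (j + i) (a + ℓ) * ℓ := e1
        _ ≤ (2 * F.V K a₀ ℓst (j + i) a) * ℓ := by gcongr
        _ ≤ (2 * (2 ^ F.E K / 8 * F.V K a₀ ℓst j a)) * ℓ := by gcongr
        _ = 2 ^ F.E K / 4 * (F.V K a₀ ℓst j a * ℓ) := by ring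
        _ ≤ 2 ^ F.E K / 4 * Θ := by gcongr)
  refine ⟨T, hT1, ?_⟩
  intro x hx y hy hxy hz
  have h := hT2 x hx y hy hxy hz
  rw [Pm.G, GQ, GQ, if_pos hj2, if_pos hj2]
  exact h

/-- slow against test -/
theorem test_slow (hF : F.Ok) (hK : F.Big K) (S : F.St K a₀ ℓst) (hℓ : 0 < ℓ) (h1 : a₀ ≤ a) (h2 : a + ℓ ≤ a₀ + ℓst) {t : ℕ}
    (ht : (2 : ℝ) ^ (F.C₂ * F.E K) ≤ F.V K a₀ ℓst t a * ℓ) (ht2 : t < 2 ^ (2 * K)) (hj : F.V K a₀ ℓst j a * ℓ < F.Th K) (hj2 : j < 2 ^ (2 * K))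
    (hqs : q ∈ Qs F.d K) (hqs' : q' ∈ Qs F.d K) :
    |av (fun x => F.G K a₀ ℓst q j x * F.G K a₀ ℓst q' t x) a ℓ| ≤ (1 / 2) ^ (10 * F.E K) := by
  obtain ⟨T, hT1, hT2⟩ := slow_brk hF hK S hℓ h1 h2 (Θ := F.Th K) (by rw [Pm.Th]; positivity) hj.le hj2 hqs
  have hal : a ≤ a + ℓ := by linarith
  have hmain := Pool.Agent.Helper76.LD6.pcs (f := F.G K a₀ ℓst q j) (g := F.G K a₀ ℓst q' t) (a := a) (b := a + ℓ)
    (ε₁ := 2 ^ (F.C₀ * F.E K) * ℓ / 2 ^ (F.C₂ * F.E K)) (ε₂ := (1 / 2) ^ (11 * F.E K)) hal T hT2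
    (G_bdd K a₀ ℓst hqs j) (G_meas K a₀ ℓst hqs j) (G_meas K a₀ ℓst hqs' t) (G_bdd K a₀ ℓst hqs' t) (by positivity) (by positivity)
    (by
      intro s u hs hsu hu
      have := fast_one hF hK S hℓ h1 h2 hs hsu hu (by positivity) ht hqs' (j := t)
      linarith)
  rw [add_sub_cancel_left] at hmain
  rw [av, abs_div, abs_of_pos hℓ, div_le_iff₀ hℓ]
  refine hmain.trans ?_
  -- numbers
  obtain ⟨hE1, -, -, -⟩ := num_E F K
  have hKb := num_K hK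
  obtain ⟨-, -, hZK⟩ := num_Z hK
  have hdZ := (num_le F).2.1
  have hd : F.d + 1 ≤ K := by omega
  set k : ℝ := 2 ^ K with hk
  set X : ℝ := 2 ^ F.E K with hX
  have hkX : k ^ 4 ≤ X := by
    rw [hk, hX, ← pow_mul]
    exact pow_le_pow_right₀ (by norm_num) (by omega)
  have hk16 : (16 : ℝ) ≤ k := by
    calc (16 : ℝ) = 2 ^ 4 := by norm_num
      _ ≤ 2 ^ K := pow_le_pow_right₀ (by norm_num) (by omega)
  have hdk : (F.d : ℝ) + 1 ≤ k := by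
    have h3 : F.d + 1 < 2 ^ K := hd.trans_lt Nat.lt_two_pow_self
    have h4 : ((F.d + 1 : ℕ) : ℝ) ≤ ((2 ^ K : ℕ) : ℝ) := by exact_mod_cast h3.le
    push_cast at h4
    exact h4
  have hk2 : k ^ 2 ≤ k ^ 4 := pow_le_pow_right₀ (by linarith) (by norm_num)
  have hX1 : (1 : ℝ) ≤ X := by nlinarith
  have hX16 : (16 : ℝ) ≤ X := by nlinarith
  have hp : ∀ n : ℕ, (2 : ℝ) ^ (n * F.E K) = X ^ n := by
    intro n
    rw [hX, ← pow_mul, mul_comm]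
  have hTh : F.Th K = X ^ F.C₁ := by rw [Pm.Th, hp]
  have hC1 : (1 : ℝ) ≤ X ^ F.C₁ := one_le_pow₀ hX1
  have hcard : (T.card : ℝ) + 1 ≤ X ^ (F.C₁ + 2) := by
    rw [hTh] at hT1
    have h5 : (T.card : ℝ) ≤ k * (k * (X / 4 * X ^ F.C₁) + 1) := hT1.trans (by gcongr)
    have hY : 4 ≤ X * X ^ F.C₁ := by nlinarith
    have h6 : k * (k * (X / 4 * X ^ F.C₁) + 1) + 1 ≤ k ^ 2 * (X * X ^ F.C₁) := by nlinarith
    calc (T.card : ℝ) + 1 ≤ k ^ 2 * (X * X ^ F.C₁) := by linarith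
      _ ≤ X * (X * X ^ F.C₁) := by
        gcongr
        linarith
      _ = X ^ (F.C₁ + 2) := by ring
  have hε : (2 : ℝ) ^ (F.C₀ * F.E K) * ℓ / 2 ^ (F.C₂ * F.E K) = ℓ / X ^ (F.C₁ + 30) := by
    rw [hp, hp, show F.C₂ = F.C₀ + (F.C₁ + 30) by rw [Pm.C₂]; ring, pow_add X F.C₀]
    field_simp
  rw [hε]
  have hX0 : (0 : ℝ) < X := by linarith
  have h7 : ((T.card : ℝ) + 1) * (ℓ / X ^ (F.C₁ + 30)) ≤ ℓ / X ^ 28 := by
    calc ((T.card : ℝ) + 1) * (ℓ / X ^ (F.C₁ + 30)) ≤ X ^ (F.C₁ + 2) * (ℓ / X ^ (F.C₁ + 30)) := by gcongr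
      _ = ℓ / X ^ 28 := by
        rw [show F.C₁ + 30 = (F.C₁ + 2) + 28 by ring, pow_add X (F.C₁ + 2)]
        field_simp
  have hh : ∀ n : ℕ, (1 / 2 : ℝ) ^ (n * F.E K) = 1 / X ^ n := by
    intro n
    rw [one_div, inv_pow, hp, one_div]
  rw [hh, hh]
  have h8 : ℓ / X ^ 28 ≤ 1 / X ^ 11 * ℓ := by
    rw [div_eq_mul_one_div, mul_comm]
    gcongr
    norm_num
  have h9 : 1 / X ^ 11 * ℓ + 1 / X ^ 11 * ℓ ≤ 1 / X ^ 10 * ℓ := by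
    have h10 : 1 / X ^ 11 = 1 / X ^ 10 * (1 / X) := by
      rw [pow_succ X 10]
      field_simp
    have h11 : 1 / X ≤ 1 / 2 := by
      apply one_div_le_one_div_of_le <;> linarith
    rw [h10]
    have h12 : 0 ≤ 1 / X ^ 10 * ℓ := by positivity
    nlinarith
  linarith

end Pool.Agent.Helper14.LD6
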