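import Pool.Agent.Helper76.LD6.Pc
import Pool.Agent.Helper17.LD6.H1

/-!
# Project LD6, block TST: break points of a product of Haar functions along monotone functions
-/

set_option autoImplicit false

namespace Pool.Agent.Helper14.LD6

open Set MeasureTheory
open Pool.Agent.Helper41.LD6

/-- break points of a product -/
theorem prod_brk {d K : ℕ} {q : Fin (d + 1) → ℕ} (hq : ∀ i, q i < 2 ^ K) {a b : ℝ} (hab : a ≤ b) (u : Fin (d + 1) → ℝ → ℝ)
    (hc : ∀ i, ContinuousOn (u i) (Icc a b)) (hm : ∀ i, MonotoneOn (u i) (Icc a b)) {D : ℝ} (hD : ∀ i, u i b - u i a ≤ D) :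
    ∃ S : Finset ℝ, (S.card : ℝ) ≤ (d + 1) * (2 ^ K * D + 1) ∧ ∀ x ∈ Icc a b, ∀ y ∈ Icc a b, x ≤ y → (∀ z ∈ S, z ∉ Ioc x y) →
      ∏ i, hr (q i) (u i x) = ∏ i, hr (q i) (u i y) := by
  classical
  choose S hS1 hS2 using fun i : Fin (d + 1) => Pool.Agent.Helper76.LD6.brk hab (hc i) (hm i) (2 ^ K)
  refine ⟨Finset.univ.biUnion S, ?_, ?_⟩
  · have h1 : ((Finset.univ.biUnion S).card : ℝ) ≤ ∑ i : Fin (d + 1), ((S i).card : ℝ) := by
      exact_mod_cast Finset.card_biUnion_le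
    refine h1.trans ?_
    have h2 : ∀ i ∈ (Finset.univ : Finset (Fin (d + 1))), ((S i).card : ℝ) ≤ 2 ^ K * D + 1 := by
      intro i _
      refine (hS1 i).trans ?_
      push_cast
      have := hD i
      gcongr
    refine (Finset.sum_le_sum h2).trans (le_of_eq ?_)
    rw [Finset.sum_const, Finset.card_univ, Fintype.card_fin, nsmul_eq_mul]
    push_cast
    ring
  · intro x hx y hy hxy hz
    refine Finset.prod_congr rfl fun i _ => ?_
    refine (Pool.Agent.Helper17.LD6.hr_gr (hq i)).grid _ _ ?_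
    exact hS2 i x hx y hy hxy fun z hz' => hz z (Finset.mem_biUnion.mpr ⟨i, Finset.mem_univ i, hz'⟩)

end Pool.Agent.Helper14.LD6
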